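import Pool.Agent.V11163.Sqg

set_option autoImplicit false

/-! Assembly of a Steiner quasigroup on `L ⊕ K` from a Steiner quasigroup on `L`,
perfect matchings `mu l` of `K` and paired moves of `K`. -/

namespace Pool.Agent.V11163.Sqg

/-- The data of the assembly. -/
structure Asm (L K M : Type*) where
  mu : L → K → K
  act : M → K → K
  rev : M → M
  prime : M → M
  mu_mu : ∀ l p, mu l (mu l p) = p
  mu_ne : ∀ l p, mu l p ≠ p
  act_ne : ∀ m p, act m p ≠ p
  rev_act : ∀ m p, act (rev m) (act m p) = p
  prime_prime : ∀ m, prime (prime m) = m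
  comm : ∀ m p, act (prime (rev m)) (act m p) = act (prime m) p
  sharp : ∀ p q : K, p ≠ q → ∃! m : L ⊕ M, Sum.elim mu act m p = q

namespace Asm
variable {L K M : Type*} (A : Asm L K M)

open Classical in
/-- the move from `p` to `q` -/
noncomputable def find (p q : K) (h : p ≠ q) : L ⊕ M := (A.sharp p q h).choose

theorem find_spec (p q : K) (h : p ≠ q) : Sum.elim A.mu A.act (A.find p q h) p = q :=
  (A.sharp p q h).choose_spec.1

theorem find_uniq (p q : K) (h : p ≠ q) (m : L ⊕ M) (hm : Sum.elim A.mu A.act m p = q) :
    A.find p q h = m :=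
  (A.sharp p q h).unique (A.find_spec p q h) hm

open Classical in
/-- third point of two points of `K` -/
noncomputable def third (p q : K) : L ⊕ K :=
  if h : p = q then Sum.inr p else
    match A.find p q h with
    | Sum.inl l => Sum.inl l
    | Sum.inr m => Sum.inr (A.act (A.prime m) p)

theorem third_self (p : K) : A.third p p = Sum.inr p := by simp [third]

theorem third_mu (l : L) (p : K) : A.third p (A.mu l p) = Sum.inl l := by
  have h : p ≠ A.mu l p := (A.mu_ne l p).symm
  unfold third
  rw [dif_neg h, A.find_uniq p _ h (Sum.inl l) rfl]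

theorem third_act (m : M) (p : K) :
    A.third p (A.act m p) = Sum.inr (A.act (A.prime m) p) := by
  have h : p ≠ A.act m p := (A.act_ne m p).symm
  unfold third
  rw [dif_neg h, A.find_uniq p _ h (Sum.inr m) rfl]

/-- the three cases for a pair of points of `K` -/
theorem cases (p q : K) : p = q ∨ (∃ l, q = A.mu l p) ∨ (∃ m, q = A.act m p) := by
  by_cases h : p = q
  · exact Or.inl h
  · right
    obtain ⟨m, hm, -⟩ := A.sharp p q h
    rcases m with l | m
    · exact Or.inl ⟨l, hm.symm⟩
    · exact Or.inr ⟨m, hm.symm⟩

/-- the assembled operation -/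
noncomputable def op (t : L → L → L) : L ⊕ K → L ⊕ K → L ⊕ K
  | Sum.inl a, Sum.inl b => Sum.inl (t a b)
  | Sum.inl a, Sum.inr p => Sum.inr (A.mu a p)
  | Sum.inr p, Sum.inl a => Sum.inr (A.mu a p)
  | Sum.inr p, Sum.inr q => A.third p q

theorem op_isSq (t : L → L → L) (ht : IsSq t) : IsSq (A.op t) where
  idem := by
    rintro (a | p)
    · simp [op, ht.idem]
    · simp [op, third_self]
  comm := by
    rintro (a | p) (b | q)
    · simp [op, ht.comm a b]
    · rfl
    · rfl
    · change A.third p q = A.third q p
      rcases A.cases p q with rfl | ⟨l, rfl⟩ | ⟨m, rfl⟩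
      · rfl
      · rw [A.third_mu]
        have h := A.third_mu l (A.mu l p)
        rw [A.mu_mu] at h
        rw [h]
      · rw [A.third_act]
        have h := A.third_act (A.rev m) (A.act m p)
        rw [A.rev_act, A.comm] at h
        rw [h]
  invol := by
    rintro (a | p) (b | q)
    · simp [op, ht.invol]
    · simp [op, A.mu_mu]
    · change A.op t (Sum.inr p) (Sum.inr (A.mu b p)) = Sum.inl b
      exact A.third_mu b p
    · change A.op t (Sum.inr p) (A.third p q) = Sum.inr q
      rcases A.cases p q with rfl | ⟨l, rfl⟩ | ⟨m, rfl⟩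
      · rw [A.third_self]; exact A.third_self p
      · rw [A.third_mu]; rfl
      · rw [A.third_act]
        change A.third p _ = _
        rw [A.third_act, A.prime_prime]

/-- an equivariant permutation of `K` gives an automorphism fixing `L`. -/
theorem op_equivariant (t : L → L → L) (s : K → K)
    (hmu : ∀ l p, A.mu l (s p) = s (A.mu l p)) (hact : ∀ m p, A.act m (s p) = s (A.act m p))
    (x y : L ⊕ K) :
    A.op t (Sum.map id s x) (Sum.map id s y) = Sum.map id s (A.op t x y) := by
  rcases x with a | p <;> rcases y with b | q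
  · rfl
  · simp [op, hmu]
  · simp [op, hmu]
  · change A.third (s p) (s q) = Sum.map id s (A.third p q)
    rcases A.cases p q with rfl | ⟨l, rfl⟩ | ⟨m, rfl⟩
    · rw [A.third_self, A.third_self]; rfl
    · rw [A.third_mu, ← hmu, A.third_mu]; rfl
    · rw [A.third_act, ← hact, A.third_act, hact]; rfl

end Asm

end Pool.Agent.V11163.Sqg
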