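import Pool.Agent.V11163.Assembly

set_option autoImplicit false

/-! The invariant structure on `H × I`. -/

namespace Pool.Agent.V11163.Sqg

/-- the long representatives -/
def IsA {H : Type} [Group H] (w : H) (rH : H → ℕ) (a : H) : Prop :=
  a * a ≠ 1 ∧ a ≠ w ∧ a ≠ w⁻¹ ∧ rH a < rH a⁻¹

/-- parameters -/
structure Par (H I : Type) [Group H] [AddCommGroup I] where
  w : H
  w3 : w * w = w⁻¹
  w1 : w ≠ 1
  i2 : ∀ i : I, i + i = 0
  rI : I → ℕ
  rI_inj : Function.Injective rI
  rH : H → ℕ
  rH_inj : Function.Injective rH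
  kap : {a : H // IsA w rH a} → I
  kap_inj : Function.Injective kap
  kap_ne : ∀ a, kap a ≠ 0
  b : {a : H // IsA w rH a} → H
  b1 : ∀ a, b a ≠ 1
  b2 : ∀ a, b a ≠ a.1
  b3 : ∀ a, b a ≠ a.1 * a.1

/-- the four kinds of cross moves -/
inductive K4 | E | D | Ei | Di
  deriving DecidableEq

instance : Fintype K4 := ⟨{.E, .D, .Ei, .Di}, by intro k; cases k <;> decide⟩

theorem card_K4 : Fintype.card K4 = 4 := rfl

/-- switch -/
def K4.sw : K4 → K4
  | .E => .Ei
  | .D => .Di
  | .Ei => .E
  | .Di => .D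

theorem K4.sw_sw (k : K4) : k.sw.sw = k := by cases k <;> rfl

/-- pairing of the cross moves: `Ei ↔ Di` (the moves `E`, `D` are paired with pure moves) -/
inductive Mv (A : Type) | pure (a : A) (s : Bool) | cross (a : A) (k : K4) | sh (s : Bool)

/-- Moves as a sum type. -/
def Mv.equiv (A : Type) : Mv A ≃ (A × Bool) ⊕ (A × K4) ⊕ Bool where
  toFun
    | .pure a s => Sum.inl (a, s)
    | .cross a k => Sum.inr (Sum.inl (a, k))
    | .sh s => Sum.inr (Sum.inr s)
  invFun
    | Sum.inl (a, s) => .pure a s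
    | Sum.inr (Sum.inl (a, k)) => .cross a k
    | Sum.inr (Sum.inr s) => .sh s
  left_inv := by rintro (_ | _ | _) <;> rfl
  right_inv := by rintro (_ | _ | _) <;> rfl

namespace Par
variable {H I : Type} [Group H] [AddCommGroup I] (P : Par H I)

/-- long representatives -/
abbrev A : Type := {a : H // IsA P.w P.rH a}
/-- involutions -/
abbrev T (H : Type) [Group H] : Type := {s : H // s * s = 1 ∧ s ≠ 1}
/-- codes of cross pairs -/
abbrev Y (H I : Type) [Group H] [AddCommGroup I] : Type := {k : I // k ≠ 0} × H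

/-- label of a cross move -/
def lab (a : P.A) : K4 → H
  | .E => 1
  | .D => a.1⁻¹
  | .Ei => (P.b a)⁻¹
  | .Di => (P.b a)⁻¹ * a.1

/-- used codes -/
def f (x : P.A × K4) : Y H I := (⟨P.kap x.1, P.kap_ne x.1⟩, P.lab x.1 x.2)

theorem a_ne_one (a : P.A) : a.1 ≠ 1 := by
  intro h
  apply a.2.1
  rw [h, one_mul]

theorem lab_inj (a : P.A) : Function.Injective (P.lab a) := by
  have h1 := P.b1 a
  have h2 := P.b2 a
  have h3 := P.b3 a
  have h4 := P.a_ne_one a
  intro k l h
  cases k <;> cases l <;> simp only [lab] at h <;> first | rfl | (exfalso; revert h)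
  · intro h; apply h4; rw [← inv_inj, ← h, inv_one]
  · intro h; apply h1; rw [← inv_inj, ← h, inv_one]
  · intro h; apply h2; exact (inv_mul_eq_one.1 h.symm)
  · intro h; apply h4; rw [← inv_inj, h, inv_one]
  · intro h; apply h2; exact (inv_injective h).symm
  · intro h; apply h3
    have h5 : P.b a * a.1⁻¹ = a.1 := by rw [h, mul_inv_cancel_left]
    exact mul_inv_eq_iff_eq_mul.1 h5
  · intro h; apply h1; rw [← inv_inj, h, inv_one]
  · intro h; apply h2; exact inv_injective h
  · intro h; apply h4; exact (left_eq_mul.1 h)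
  · intro h; apply h2; exact (inv_mul_eq_one.1 h)
  · intro h; apply h3
    have h5 : P.b a * a.1⁻¹ = a.1 := by rw [← h, mul_inv_cancel_left]
    exact mul_inv_eq_iff_eq_mul.1 h5
  · intro h; apply h4; exact (mul_eq_left.1 h)

theorem f_inj : Function.Injective P.f := by
  rintro ⟨a, k⟩ ⟨a', k'⟩ h
  unfold f at h
  have h1 : P.kap a = P.kap a' := by
    have := congrArg (fun y : Y H I => y.1.1) h
    exact this
  have h2 : a = a' := P.kap_inj h1
  subst h2
  have h3 : P.lab a k = P.lab a k' := congrArg (fun y : Y H I => y.2) h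
  rw [P.lab_inj a h3]

/-- unused codes -/
abbrev U : Type := {y : Y H I // y ∉ Set.range P.f}

/-- position -/
def pos (i k : I) : Prop := P.rI i < P.rI (i + k)

instance (i k : I) : Decidable (P.pos i k) := inferInstanceAs (Decidable (_ < _))

theorem pos_flip {i k : I} (hk : k ≠ 0) : P.pos (i + k) k ↔ ¬ P.pos i k := by
  unfold pos
  have h1 : i + k + k = i := by rw [add_assoc, P.i2, add_zero]
  have h2 : P.rI (i + k) ≠ P.rI i := by
    intro h
    apply hk
    have := P.rI_inj h
    exact (add_eq_left.1 this)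
  rw [h1]
  omega

/-- raw cross move -/
def raw (k : I) (c : H) (p : H × I) : H × I :=
  (if P.pos p.2 k then p.1 * c else p.1 * c⁻¹, p.2 + k)

theorem raw_snd (k : I) (c : H) (p : H × I) : (P.raw k c p).2 = p.2 + k := rfl

theorem raw_raw {k : I} (hk : k ≠ 0) (c : H) (p : H × I) : P.raw k c (P.raw k c p) = p := by
  obtain ⟨x, i⟩ := p
  have h1 : i + k + k = i := by rw [add_assoc, P.i2, add_zero]
  have h2 := P.pos_flip (i := i) hk
  unfold raw
  by_cases h : P.pos i k
  · have h3 : ¬ P.pos (i + k) k := by rw [h2]; exact not_not.2 h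
    simp [h, h3, h1]
  · have h3 : P.pos (i + k) k := by rw [h2]; exact h
    simp [h, h3, h1]

/-- the action of the moves -/
def act : Mv P.A → H × I → H × I
  | .pure a s, p => (p.1 * (if s then a.1 else a.1⁻¹), p.2)
  | .cross a k, p => P.raw (P.kap a) (P.lab a (if P.pos p.2 (P.kap a) then k else k.sw)) p
  | .sh s, p => (p.1 * (if s then P.w else P.w⁻¹), p.2)

/-- reverse move -/
def rev : Mv P.A → Mv P.A
  | .pure a s => .pure a (!s)
  | .cross a k => .cross a k.sw
  | .sh s => .sh (!s)

/-- paired move -/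
def prime : Mv P.A → Mv P.A
  | .pure a true => .cross a .E
  | .pure a false => .cross a .D
  | .cross a .E => .pure a true
  | .cross a .D => .pure a false
  | .cross a .Ei => .cross a .Di
  | .cross a .Di => .cross a .Ei
  | .sh s => .sh (!s)

/-- matchings -/
def mu : T H ⊕ P.U → H × I → H × I
  | Sum.inl s, p => (p.1 * s.1, p.2)
  | Sum.inr u, p => P.raw u.1.1.1 u.1.2 p

theorem raw_ne {k : I} (hk : k ≠ 0) (c : H) (p : H × I) : P.raw k c p ≠ p := by
  intro h
  apply hk
  have := congrArg Prod.snd h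
  exact add_eq_left.1 this

theorem mu_mu (l : T H ⊕ P.U) (p : H × I) : P.mu l (P.mu l p) = p := by
  rcases l with s | u
  · simp [mu, mul_assoc, s.2.1]
  · exact P.raw_raw u.1.1.2 _ _

theorem mu_ne (l : T H ⊕ P.U) (p : H × I) : P.mu l p ≠ p := by
  rcases l with s | u
  · intro h
    apply s.2.2
    have := congrArg Prod.fst h
    exact mul_eq_left.1 this
  · exact P.raw_ne u.1.1.2 _ _

theorem w_ne_inv : P.w ≠ P.w⁻¹ := by
  intro h
  apply P.w1
  have h1 := P.w3
  rw [← h] at h1
  exact mul_eq_left.1 h1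

theorem act_ne (m : Mv P.A) (p : H × I) : P.act m p ≠ p := by
  rcases m with ⟨a, s⟩ | ⟨a, k⟩ | s
  · intro h
    have h1 : p.1 * (if s then a.1 else a.1⁻¹) = p.1 := congrArg Prod.fst h
    have h2 := mul_eq_left.1 h1
    have h3 := P.a_ne_one a
    cases s
    · simp at h2; exact h3 h2
    · simp at h2; exact h3 h2
  · exact P.raw_ne (P.kap_ne a) _ _
  · intro h
    have h1 : p.1 * (if s then P.w else P.w⁻¹) = p.1 := congrArg Prod.fst h
    have h2 := mul_eq_left.1 h1
    have h3 := P.w1
    cases s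
    · simp at h2; exact h3 h2
    · simp at h2; exact h3 h2

theorem rev_act (m : Mv P.A) (p : H × I) : P.act (P.rev m) (P.act m p) = p := by
  obtain ⟨x, i⟩ := p
  rcases m with ⟨a, s⟩ | ⟨a, k⟩ | s
  · cases s <;> simp [act, rev]
  · have hk := P.kap_ne a
    have h2 := P.pos_flip (i := i) hk
    by_cases h : P.pos i (P.kap a)
    · have h4 : ¬ P.pos (i + P.kap a) (P.kap a) := by rw [h2]; exact not_not.2 h
      simp only [act, rev, raw_snd, h, h4, if_true, if_false, K4.sw_sw]
      exact P.raw_raw hk _ _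
    · have h4 : P.pos (i + P.kap a) (P.kap a) := by rw [h2]; exact h
      simp only [act, rev, raw_snd, h, h4, if_true, if_false]
      exact P.raw_raw hk _ _
  · cases s <;> simp [act, rev]

theorem prime_prime (m : Mv P.A) : P.prime (P.prime m) = m := by
  rcases m with ⟨a, _ | _⟩ | ⟨a, _ | _ | _ | _⟩ | s <;> simp [prime]

theorem act_comm (m : Mv P.A) (p : H × I) :
    P.act (P.prime (P.rev m)) (P.act m p) = P.act (P.prime m) p := by
  obtain ⟨x, i⟩ := p
  rcases m with ⟨a, s⟩ | ⟨a, k⟩ | s
  · by_cases h : P.pos i (P.kap a)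
    · cases s <;> simp [act, rev, prime, raw, h, lab]
    · cases s <;> simp [act, rev, prime, raw, h, lab, K4.sw, mul_assoc]
  · have hk := P.kap_ne a
    have h2 := P.pos_flip (i := i) hk
    have h1 : i + P.kap a + P.kap a = i := by rw [add_assoc, P.i2, add_zero]
    by_cases h : P.pos i (P.kap a)
    · have h4 : ¬ P.pos (i + P.kap a) (P.kap a) := by rw [h2]; exact not_not.2 h
      cases k <;> simp [act, rev, prime, raw, h, h4, h1, lab, K4.sw, mul_assoc]
    · have h4 : P.pos (i + P.kap a) (P.kap a) := by rw [h2]; exact h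
      cases k <;> simp [act, rev, prime, raw, h, h4, h1, lab, K4.sw, mul_assoc]
  · have h5 : P.w⁻¹ * P.w⁻¹ = P.w := by
      rw [← mul_inv_rev, P.w3, inv_inv]
    cases s <;> simp [act, rev, prime, mul_assoc, P.w3, h5]

end Par

end Pool.Agent.V11163.Sqg
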