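import Pool.Agent.V11163.Inst

set_option autoImplicit false

namespace Pool.Agent.V11163.Sqg
namespace Par
variable {H I : Type} [Group H] [AddCommGroup I] (P : Par H I)

/-- pure codes -/
abbrev Pm : Type := T H ⊕ (P.A × Bool) ⊕ Bool

/-- value of a pure code -/
def val : P.Pm → H
  | Sum.inl s => s.1
  | Sum.inr (Sum.inl (a, s)) => if s then a.1 else a.1⁻¹
  | Sum.inr (Sum.inr s) => if s then P.w else P.w⁻¹

open Classical in
/-- decoding -/
noncomputable def dec (u : H) : Option P.Pm :=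
  if h : u * u = 1 ∧ u ≠ 1 then some (Sum.inl ⟨u, h⟩)
  else if u = P.w then some (Sum.inr (Sum.inr true))
  else if u = P.w⁻¹ then some (Sum.inr (Sum.inr false))
  else if h : IsA P.w P.rH u then some (Sum.inr (Sum.inl (⟨u, h⟩, true)))
  else if h : IsA P.w P.rH u⁻¹ then some (Sum.inr (Sum.inl (⟨u⁻¹, h⟩, false)))
  else none

theorem ww_ne : P.w * P.w ≠ 1 := by
  rw [P.w3]
  intro h
  exact P.w1 (inv_eq_one.1 h)

theorem wiwi : P.w⁻¹ * P.w⁻¹ = P.w := by
  rw [← mul_inv_rev, P.w3, inv_inv]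

theorem dec_val (m : P.Pm) : P.dec (P.val m) = some m := by
  have e1 := P.ww_ne
  have e2 := P.wiwi
  have e3 := P.w1
  have e4 := P.w_ne_inv
  rcases m with s | ⟨a, s⟩ | s
  · have h : s.1 * s.1 = 1 ∧ s.1 ≠ 1 := s.2
    change P.dec s.1 = _
    unfold dec
    rw [dif_pos h]
  · obtain ⟨h1, h2, h3, h4⟩ := a.2
    cases s
    · have k1 : ¬ (a.1⁻¹ * a.1⁻¹ = 1 ∧ a.1⁻¹ ≠ 1) := by
        rintro ⟨h, -⟩
        apply h1
        rw [← mul_inv_rev] at h
        exact inv_eq_one.1 h
      have k2 : a.1⁻¹ ≠ P.w := by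
        intro h; exact h3 (inv_eq_iff_eq_inv.1 h)
      have k3 : a.1⁻¹ ≠ P.w⁻¹ := fun h => h2 (inv_injective h)
      have k4 : ¬ IsA P.w P.rH a.1⁻¹ := by
        rintro ⟨-, -, -, h⟩
        rw [inv_inv] at h
        omega
      have k5 : IsA P.w P.rH a.1⁻¹⁻¹ := by rw [inv_inv]; exact a.2
      change P.dec a.1⁻¹ = _
      unfold dec
      rw [dif_neg k1, if_neg k2, if_neg k3, dif_neg k4, dif_pos k5]
      congr 3
      exact Prod.ext (Subtype.ext (inv_inv _)) rfl
    · have k1 : ¬ (a.1 * a.1 = 1 ∧ a.1 ≠ 1) := fun h => h1 h.1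
      change P.dec a.1 = _
      unfold dec
      rw [dif_neg k1, if_neg h2, if_neg h3, dif_pos a.2]
  · cases s
    · have k1 : ¬ (P.w⁻¹ * P.w⁻¹ = 1 ∧ P.w⁻¹ ≠ 1) := by
        rintro ⟨h, -⟩
        rw [e2] at h
        exact e3 h
      change P.dec P.w⁻¹ = _
      unfold dec
      rw [dif_neg k1, if_neg e4.symm, if_pos rfl]
    · have k1 : ¬ (P.w * P.w = 1 ∧ P.w ≠ 1) := fun h => e1 h.1
      change P.dec P.w = _
      unfold dec
      rw [dif_neg k1, if_pos rfl]

theorem val_inj : Function.Injective P.val := by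
  intro m m' h
  have h1 := P.dec_val m
  rw [h, P.dec_val m'] at h1
  exact (Option.some_injective _ h1).symm

theorem val_surj {u : H} (hu : u ≠ 1) : ∃ m, P.val m = u := by
  by_cases h1 : u * u = 1
  · exact ⟨Sum.inl ⟨u, h1, hu⟩, rfl⟩
  by_cases h2 : u = P.w
  · exact ⟨Sum.inr (Sum.inr true), by simp [val, h2]⟩
  by_cases h3 : u = P.w⁻¹
  · exact ⟨Sum.inr (Sum.inr false), by simp [val, h3]⟩
  have h4 : P.rH u ≠ P.rH u⁻¹ := by
    intro h
    apply h1
    have := P.rH_inj h
    nth_rewrite 2 [this]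
    exact mul_inv_cancel u
  rcases lt_or_gt_of_ne h4 with h | h
  · exact ⟨Sum.inr (Sum.inl (⟨u, h1, h2, h3, h⟩, true)), by simp [val]⟩
  · refine ⟨Sum.inr (Sum.inl (⟨u⁻¹, ?_, ?_, ?_, ?_⟩, false)), by simp [val]⟩
    · intro h5
      apply h1
      rw [← mul_inv_rev] at h5
      exact inv_eq_one.1 h5
    · intro h5; exact h3 (inv_eq_iff_eq_inv.1 h5)
    · intro h5; exact h2 (inv_injective h5)
    · rw [inv_inv]; exact h

/-- pure codes as moves -/
def pm : P.Pm → (T H ⊕ P.U) ⊕ Mv P.A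
  | Sum.inl s => Sum.inl (Sum.inl s)
  | Sum.inr (Sum.inl (a, s)) => Sum.inr (.pure a s)
  | Sum.inr (Sum.inr s) => Sum.inr (.sh s)

theorem pm_act (m : P.Pm) (p : H × I) :
    Sum.elim P.mu P.act (P.pm m) p = (p.1 * P.val m, p.2) := by
  rcases m with s | ⟨a, s⟩ | s <;> rfl

theorem move_cases (m : (T H ⊕ P.U) ⊕ Mv P.A) :
    (∃ m', m = P.pm m') ∨ (∃ u : P.U, m = Sum.inl (Sum.inr u)) ∨
      (∃ (a : P.A) (k : K4), m = Sum.inr (.cross a k)) := by
  rcases m with (s | u) | (⟨a, s⟩ | ⟨a, k⟩ | s)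
  · exact Or.inl ⟨Sum.inl s, rfl⟩
  · exact Or.inr (Or.inl ⟨u, rfl⟩)
  · exact Or.inl ⟨Sum.inr (Sum.inl (a, s)), rfl⟩
  · exact Or.inr (Or.inr ⟨a, k, rfl⟩)
  · exact Or.inl ⟨Sum.inr (Sum.inr s), rfl⟩

theorem raw_inj {k k' : I} {c c' : H} {p : H × I} (h : P.raw k c p = P.raw k' c' p) :
    k = k' ∧ c = c' := by
  have h1 : k = k' := by
    have := congrArg Prod.snd h
    exact add_left_cancel this
  subst h1
  refine ⟨rfl, ?_⟩
  have h2 := congrArg Prod.fst h
  simp only [raw] at h2
  by_cases hp : P.pos p.2 k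
  · simpa [hp] using h2
  · simpa [hp] using h2

theorem sharp (p q : H × I) (hpq : p ≠ q) :
    ∃! m : (T H ⊕ P.U) ⊕ Mv P.A, Sum.elim P.mu P.act m p = q := by
  by_cases hij : p.2 = q.2
  · have hu : p.1⁻¹ * q.1 ≠ 1 := by
      intro h
      apply hpq
      exact Prod.ext (inv_mul_eq_one.1 h) hij
    obtain ⟨m, hm⟩ := P.val_surj hu
    refine ⟨P.pm m, ?_, ?_⟩
    · change Sum.elim P.mu P.act (P.pm m) p = q
      rw [pm_act, hm, mul_inv_cancel_left, hij]
    · intro m' hm'
      change Sum.elim P.mu P.act m' p = q at hm'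
      rcases P.move_cases m' with ⟨m1, rfl⟩ | ⟨u, rfl⟩ | ⟨a, k, rfl⟩
      · rw [pm_act] at hm'
        have h1 : p.1 * P.val m1 = q.1 := congrArg Prod.fst hm'
        congr 1
        apply P.val_inj
        rw [hm, ← h1, inv_mul_cancel_left]
      · exfalso
        have h1 : p.2 + u.1.1.1 = q.2 := congrArg Prod.snd hm'
        rw [← hij] at h1
        exact u.1.1.2 (add_eq_left.1 h1)
      · exfalso
        have h1 : p.2 + P.kap a = q.2 := congrArg Prod.snd hm'
        rw [← hij] at h1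
        exact P.kap_ne a (add_eq_left.1 h1)
  · have hk : p.2 + q.2 ≠ 0 := by
      intro h
      apply hij
      have h1 := P.i2 q.2
      rw [← h1] at h
      exact add_right_cancel h
    -- the raw code
    obtain ⟨c, hc⟩ : ∃ c, P.raw (p.2 + q.2) c p = q := by
      have h2 : p.2 + (p.2 + q.2) = q.2 := by rw [← add_assoc, P.i2, zero_add]
      by_cases hp : P.pos p.2 (p.2 + q.2)
      · refine ⟨p.1⁻¹ * q.1, ?_⟩
        unfold raw
        rw [if_pos hp, h2, mul_inv_cancel_left]
      · refine ⟨q.1⁻¹ * p.1, ?_⟩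
        unfold raw
        rw [if_neg hp, h2, mul_inv_rev, inv_inv, mul_inv_cancel_left]
    set κ := p.2 + q.2 with hκ
    by_cases hr : (⟨⟨κ, hk⟩, c⟩ : Y H I) ∈ Set.range P.f
    · obtain ⟨⟨a, k⟩, hak⟩ := hr
      have ha : P.kap a = κ := congrArg (fun y : Y H I => y.1.1) hak
      have hl : P.lab a k = c := congrArg (fun y : Y H I => y.2) hak
      have hact : ∀ (k' : K4), P.act (.cross a k') p =
          P.raw κ (P.lab a (if P.pos p.2 κ then k' else k'.sw)) p := by
        intro k'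
        simp only [act, ha]
      refine ⟨Sum.inr (.cross a (if P.pos p.2 κ then k else k.sw)), ?_, ?_⟩
      · change P.act (.cross a (if P.pos p.2 κ then k else k.sw)) p = q
        rw [hact]
        by_cases hp : P.pos p.2 κ
        · simp only [hp, if_true]; rw [hl]; exact hc
        · simp only [hp, if_false, K4.sw_sw]; rw [hl]; exact hc
      · intro m' hm'
        change Sum.elim P.mu P.act m' p = q at hm'
        rcases P.move_cases m' with ⟨m1, rfl⟩ | ⟨u, rfl⟩ | ⟨a', k', rfl⟩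
        · exfalso
          rw [pm_act] at hm'
          have h9 := congrArg Prod.snd hm'
          exact hij h9
        · exfalso
          have h1 : P.raw u.1.1.1 u.1.2 p = P.raw κ c p := by rw [hc]; exact hm'
          obtain ⟨h2, h3⟩ := P.raw_inj h1
          apply u.2
          refine ⟨(a, k), ?_⟩
          rw [hak]
          refine Prod.ext (Subtype.ext h2.symm) h3.symm
        · have h1 : P.act (.cross a' k') p = P.raw κ c p := by rw [hc]; exact hm'
          simp only [act] at h1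
          obtain ⟨h2, h3⟩ := P.raw_inj h1
          have h4 : a' = a := P.kap_inj (h2.trans ha.symm)
          subst h4
          rw [← hl, ha] at h3
          have h5 := P.lab_inj _ h3
          by_cases hp : P.pos p.2 κ
          · simp only [hp, if_true] at h5 ⊢
            rw [h5]
          · simp only [hp, if_false] at h5 ⊢
            rw [← h5, K4.sw_sw]
    · refine ⟨Sum.inl (Sum.inr ⟨⟨⟨κ, hk⟩, c⟩, hr⟩), hc, ?_⟩
      intro m' hm'
      change Sum.elim P.mu P.act m' p = q at hm'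
      rcases P.move_cases m' with ⟨m1, rfl⟩ | ⟨u, rfl⟩ | ⟨a', k', rfl⟩
      · exfalso
        rw [pm_act] at hm'
        have h9 := congrArg Prod.snd hm'
        exact hij h9
      · have h1 : P.raw u.1.1.1 u.1.2 p = P.raw κ c p := by rw [hc]; exact hm'
        obtain ⟨h2, h3⟩ := P.raw_inj h1
        have h4 : u = ⟨⟨⟨κ, hk⟩, c⟩, hr⟩ :=
          Subtype.ext (Prod.ext (Subtype.ext h2) h3)
        rw [h4]
      · exfalso
        have h1 : P.act (.cross a' k') p = P.raw κ c p := by rw [hc]; exact hm'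
        simp only [act] at h1
        obtain ⟨h2, h3⟩ := P.raw_inj h1
        exact hr ⟨(a', _), Prod.ext (Subtype.ext h2) h3⟩

/-- The assembly data. -/
def asm : Asm (T H ⊕ P.U) (H × I) (Mv P.A) where
  mu := P.mu
  act := P.act
  rev := P.rev
  prime := P.prime
  mu_mu := P.mu_mu
  mu_ne := P.mu_ne
  act_ne := P.act_ne
  rev_act := P.rev_act
  prime_prime := P.prime_prime
  comm := P.act_comm
  sharp := P.sharp

theorem mu_smul (g : H) (l : T H ⊕ P.U) (p : H × I) :
    P.mu l (g * p.1, p.2) = (g * (P.mu l p).1, (P.mu l p).2) := by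
  rcases l with s | u
  · simp [mu, mul_assoc]
  · simp only [mu, raw]
    split_ifs <;> simp [mul_assoc]

theorem act_smul (g : H) (m : Mv P.A) (p : H × I) :
    P.act m (g * p.1, p.2) = (g * (P.act m p).1, (P.act m p).2) := by
  rcases m with ⟨a, s⟩ | ⟨a, k⟩ | s
  · simp [act, mul_assoc]
  · simp only [act, raw]
    split_ifs <;> simp [mul_assoc]
  · simp [act, mul_assoc]

/-- the number of labels -/
theorem card_labels [Fintype H] [Fintype I] [Nonempty I] [Fintype P.A] [Fintype (T H ⊕ P.U)] :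
    Fintype.card (T H ⊕ P.U) + 6 * Fintype.card P.A + 3 = Fintype.card H * Fintype.card I := by
  classical
  obtain ⟨i⟩ := ‹Nonempty I›
  let p : H × I := (1, i)
  have : Fintype (Mv P.A) := Fintype.ofEquiv _ (Mv.equiv P.A).symm
  have hM : Fintype.card (Mv P.A) = 6 * Fintype.card P.A + 2 := by
    rw [Fintype.card_congr (Mv.equiv P.A)]
    simp only [Fintype.card_sum, Fintype.card_prod, Fintype.card_bool, card_K4]
    ring
  let F : (T H ⊕ P.U) ⊕ Mv P.A → {q : H × I // q ≠ p} := fun m =>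
    ⟨Sum.elim P.mu P.act m p, by
      rcases m with l | m
      · exact P.mu_ne l p
      · exact P.act_ne m p⟩
  have hF : Function.Bijective F := by
    constructor
    · intro m m' h
      have h1 : Sum.elim P.mu P.act m p = Sum.elim P.mu P.act m' p := congrArg Subtype.val h
      have hne : p ≠ Sum.elim P.mu P.act m' p := (F m').2.symm
      exact (P.sharp p _ hne).unique h1 rfl
    · rintro ⟨q, hq⟩
      obtain ⟨m, hm, -⟩ := P.sharp p q hq.symm
      exact ⟨m, Subtype.ext hm⟩
  have h1 := Fintype.card_of_bijective hF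
  rw [Fintype.card_sum, hM] at h1
  have h2 : Fintype.card {q : H × I // q ≠ p} = Fintype.card (H × I) - 1 := by
    rw [Fintype.card_subtype_compl, Fintype.card_subtype_eq]
  rw [h2, Fintype.card_prod] at h1
  have h3 : 0 < Fintype.card H * Fintype.card I := by
    apply Nat.mul_pos
    · exact Fintype.card_pos
    · exact Fintype.card_pos_iff.2 ⟨i⟩
  omega

end Par
end Pool.Agent.V11163.Sqg
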