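import Mathlib

set_option autoImplicit false

/-! Steiner quasigroups, the Bose construction and an assembly lemma. -/

namespace Pool.Agent.V11163.Sqg

/-- A Steiner quasigroup operation. -/
structure IsSq {V : Type*} (t : V → V → V) : Prop where
  idem : ∀ x, t x x = x
  comm : ∀ x y, t x y = t y x
  invol : ∀ x y, t x (t x y) = y

namespace IsSq
variable {V : Type*} {t : V → V → V}

theorem ne_left (h : IsSq t) {x y : V} (hxy : x ≠ y) : t x y ≠ x := by
  intro e
  apply hxy
  have h1 := h.invol x y
  rw [e, h.idem] at h1
  exact h1

theorem ne_right (h : IsSq t) {x y : V} (hxy : x ≠ y) : t x y ≠ y := by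
  rw [h.comm]
  exact h.ne_left hxy.symm

/-- transport along an equivalence -/
theorem transport (h : IsSq t) {W : Type*} (e : W ≃ V) :
    IsSq (fun a b => e.symm (t (e a) (e b))) where
  idem x := by simp [h.idem]
  comm x y := by simp [h.comm (e x)]
  invol x y := by simp [h.invol]

open Classical in
/-- The block set of a Steiner quasigroup. -/
noncomputable def blocks [Fintype V] (t : V → V → V) : Finset (Finset V) :=
  ((Finset.univ : Finset (V × V)).filter (fun p => p.1 ≠ p.2)).image
    (fun p => {p.1, p.2, t p.1 p.2})

open Classical in
theorem mem_blocks [Fintype V] {b : Finset V} :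
    b ∈ blocks t ↔ ∃ x y, x ≠ y ∧ b = {x, y, t x y} := by
  unfold blocks
  simp only [Finset.mem_image, Finset.mem_filter, Finset.mem_univ, true_and, Prod.exists]
  constructor
  · rintro ⟨x, y, h, rfl⟩; exact ⟨x, y, h, rfl⟩
  · rintro ⟨x, y, h, rfl⟩; exact ⟨x, y, h, rfl⟩

open Classical in
theorem card_block [Fintype V] (h : IsSq t) {b : Finset V} (hb : b ∈ blocks t) :
    b.card = 3 := by
  obtain ⟨x, y, hxy, rfl⟩ := mem_blocks.1 hb
  rw [Finset.card_eq_three]
  exact ⟨x, y, t x y, hxy, (h.ne_left hxy).symm, (h.ne_right hxy).symm, rfl⟩

open Classical in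
theorem block_eq [Fintype V] (h : IsSq t) {x y u v : V} (hxy : x ≠ y) (huv : u ≠ v)
    (hu : u ∈ ({x, y, t x y} : Finset V)) (hv : v ∈ ({x, y, t x y} : Finset V)) :
    ({x, y, t x y} : Finset V) = {u, v, t u v} := by
  have e1 : t y (t x y) = x := by rw [h.comm x y]; exact h.invol y x
  have e2 : t x (t x y) = y := h.invol x y
  have e3 : t (t x y) x = y := by rw [h.comm]; exact e2
  have e4 : t (t x y) y = x := by rw [h.comm]; exact e1
  have e5 : t y x = t x y := h.comm y x
  simp only [Finset.mem_insert, Finset.mem_singleton] at hu hv
  rcases hu with rfl | rfl | rfl <;> rcases hv with rfl | rfl | rfl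
  · exact absurd rfl huv
  · rfl
  · rw [e2]; ext z; simp only [Finset.mem_insert, Finset.mem_singleton]; tauto
  · rw [e5]; ext z; simp only [Finset.mem_insert, Finset.mem_singleton]; tauto
  · exact absurd rfl huv
  · rw [e1]; ext z; simp only [Finset.mem_insert, Finset.mem_singleton]; tauto
  · rw [e3]; ext z; simp only [Finset.mem_insert, Finset.mem_singleton]; tauto
  · rw [e4]; ext z; simp only [Finset.mem_insert, Finset.mem_singleton]; tauto
  · exact absurd rfl huv

open Classical in
theorem existsUnique_block [Fintype V] (h : IsSq t) {x y : V} (hxy : x ≠ y) :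
    ∃! b, b ∈ blocks t ∧ x ∈ b ∧ y ∈ b := by
  refine ⟨{x, y, t x y}, ⟨mem_blocks.2 ⟨x, y, hxy, rfl⟩, by simp, by simp⟩, ?_⟩
  rintro b ⟨hb, hx, hy⟩
  obtain ⟨u, v, huv, rfl⟩ := mem_blocks.1 hb
  exact block_eq h huv hxy hx hy

end IsSq

/-! ### The Bose construction -/

section Bose

variable {q : ℕ}

/-- Bose operation on `ZMod q × ZMod 3`, with `c` a half of one. -/
def bose (c : ZMod q) (p r : ZMod q × ZMod 3) : ZMod q × ZMod 3 :=
  if p.2 = r.2 then
    (if p.1 = r.1 then p else (c * (p.1 + r.1), p.2 + 1))
  else if p.1 = r.1 then (p.1, - p.2 - r.2)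
  else if r.2 = p.2 + 1 then (2 * r.1 - p.1, p.2)
  else (2 * p.1 - r.1, r.2)

theorem z3_cases (a b : ZMod 3) : a = b ∨ b = a + 1 ∨ a = b + 1 := by
  revert a b; decide

theorem bose_isSq (c : ZMod q) (hc : 2 * c = 1) : IsSq (bose c) where
  idem := by
    rintro ⟨x, i⟩
    simp [bose]
  comm := by
    rintro ⟨x, i⟩ ⟨y, j⟩
    unfold bose
    rcases z3_cases i j with h | h | h
    · subst h
      by_cases hxy : x = y
      · subst hxy; simp
      · have hyx : y ≠ x := fun e => hxy e.symm
        simp [hxy, hyx, add_comm]
    · subst h
      have h1 : i ≠ i + 1 := by revert i; decide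
      have h2 : i + 1 ≠ i := by revert i; decide
      have h3 : i ≠ i + 1 + 1 := by revert i; decide
      by_cases hxy : x = y
      · subst hxy
        simp only [h1, h2, if_false, if_true]
        congr 1
        ring
      · have hyx : y ≠ x := fun e => hxy e.symm
        simp only [h1, h2, h3, hxy, hyx, if_false, if_true]
    · subst h
      have h1 : j ≠ j + 1 := by revert j; decide
      have h2 : j + 1 ≠ j := by revert j; decide
      have h3 : j ≠ j + 1 + 1 := by revert j; decide
      by_cases hxy : x = y
      · subst hxy
        simp only [h1, h2, if_false, if_true]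
        congr 1
        ring
      · have hyx : y ≠ x := fun e => hxy e.symm
        simp only [h1, h2, h3, hxy, hyx, if_false, if_true]
  invol := by
    rintro ⟨x, i⟩ ⟨y, j⟩
    rcases z3_cases i j with h | h | h
    · subst h
      by_cases hxy : x = y
      · subst hxy; simp [bose]
      · have hne : x ≠ c * (x + y) := by
          intro e
          apply hxy
          have : 2 * x = 2 * (c * (x + y)) := by rw [← e]
          have h2 : 2 * (c * (x + y)) = x + y := by
            rw [← mul_assoc, hc, one_mul]
          rw [h2] at this
          have h3 : x + x = x + y := by rw [← this]; ring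
          exact add_left_cancel h3
        have h1 : i ≠ i + 1 := by revert i; decide
        unfold bose
        simp only [hxy, if_true, if_false, h1, hne]
        have h2 : 2 * (c * (x + y)) - x = y := by
          rw [← mul_assoc, hc, one_mul]; ring
        rw [h2]
    · subst h
      have h1 : i ≠ i + 1 := by revert i; decide
      by_cases hxy : x = y
      · subst hxy
        unfold bose
        have h4 : i ≠ - i - (i + 1) := by revert i; decide
        have h5 : - i - (- i - (i + 1)) = i + 1 := by ring
        simp only [h1, if_false, if_true, h4, h5]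
      · have hne : x ≠ 2 * y - x := by
          intro e
          apply hxy
          have h2 : 2 * x = 2 * y := by
            have : x + x = (2 * y - x) + x := by rw [← e]
            rw [sub_add_cancel] at this
            rw [← this]; ring
          have h3 : c * (2 * x) = c * (2 * y) := by rw [h2]
          have h4 : ∀ z : ZMod q, c * (2 * z) = z := by
            intro z; rw [← mul_assoc, mul_comm c 2, hc, one_mul]
          rw [h4, h4] at h3
          exact h3
        unfold bose
        simp only [h1, hxy, if_false, if_true, hne]
        have h4 : ∀ z : ZMod q, c * (2 * z) = z := by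
          intro z; rw [← mul_assoc, mul_comm c 2, hc, one_mul]
        have h5 : c * (x + (2 * y - x)) = y := by
          rw [show x + (2 * y - x) = 2 * y by ring, h4]
        rw [h5]
    · subst h
      have h1 : j + 1 ≠ j := by revert j; decide
      have h2 : j ≠ j + 1 + 1 := by revert j; decide
      by_cases hxy : x = y
      · subst hxy
        unfold bose
        have h4 : j + 1 ≠ - (j + 1) - j := by revert j; decide
        have h5 : - (j + 1) - (- (j + 1) - j) = j := by ring
        simp only [h1, if_false, if_true, h4, h5]
      · have hne : x ≠ 2 * x - y := by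
          intro e
          apply hxy
          have h3 : x + y = x + x := by
            have : x + y = (2 * x - y) + y := by rw [← e]
            rw [sub_add_cancel] at this
            rw [this]; ring
          exact (add_left_cancel h3).symm
        unfold bose
        simp only [h1, hxy, if_false, h2, hne]
        have h5 : 2 * x - (2 * x - y) = y := by ring
        rw [h5]

/-- Steiner quasigroups exist on every finite type with `6 k + 3` elements. -/
theorem exists_sq (W : Type*) [Fintype W] (k : ℕ) (hk : Fintype.card W = 6 * k + 3) :
    ∃ t : W → W → W, IsSq t := by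
  have hc : 2 * ((k + 1 : ℕ) : ZMod (2 * k + 1)) = 1 := by
    have h0 : ((2 * k + 1 : ℕ) : ZMod (2 * k + 1)) = 0 := ZMod.natCast_self _
    push_cast at h0 ⊢
    linear_combination h0
  have hcard : Fintype.card W = Fintype.card (ZMod (2 * k + 1) × ZMod 3) := by
    rw [Fintype.card_prod, ZMod.card, ZMod.card, hk]; ring
  exact ⟨_, (bose_isSq _ hc).transport (Fintype.equivOfCardEq hcard)⟩

end Bose

end Pool.Agent.V11163.Sqg
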